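import Mathlib

set_option autoImplicit false

open MeasureTheory Filter Topology

namespace Pool.Agent.Work.MP_2ecbc5_gt

/-- Euclidean space. -/
abbrev EE (n : ℕ) := EuclideanSpace ℝ (Fin n)

/-- The orthogonal group. -/
noncomputable abbrev GG (n : ℕ) := unitary (EE n →L[ℝ] EE n)

instance instCS (n : ℕ) : ContinuousStar (EE n →L[ℝ] EE n) :=
  ⟨(ContinuousLinearMap.adjoint (𝕜 := ℝ) (E := EE n) (F := EE n)).continuous⟩

instance instCompactGG (n : ℕ) : CompactSpace (GG n) := by
  have hclosed : IsClosed ((unitary (EE n →L[ℝ] EE n) : Submonoid _) : Set (EE n →L[ℝ] EE n)) :=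
    isClosed_unitary
  have hb : Bornology.IsBounded
      ((unitary (EE n →L[ℝ] EE n) : Submonoid _) : Set (EE n →L[ℝ] EE n)) := by
    rw [isBounded_iff_forall_norm_le]
    refine ⟨1, fun T hT => ?_⟩
    refine ContinuousLinearMap.opNorm_le_bound _ zero_le_one fun x => ?_
    have := Unitary.norm_map ⟨T, hT⟩ x
    simp only at this
    rw [this, one_mul]
  have : ProperSpace (EE n →L[ℝ] EE n) := FiniteDimensional.proper ℝ _
  exact isCompact_iff_compactSpace.1 (Metric.isCompact_of_isClosed_isBounded hclosed hb)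

noncomputable example (n : ℕ) : Measure (GG n) := Measure.haar

/-- Action on vectors. -/
noncomputable def act {n : ℕ} (g : GG n) (x : EE n) : EE n := (g : EE n →L[ℝ] EE n) x

theorem act_mul {n : ℕ} (g h : GG n) (x : EE n) : act (g * h) x = act g (act h x) := rfl

theorem act_one {n : ℕ} (x : EE n) : act 1 x = x := rfl

theorem act_inv_act {n : ℕ} (g : GG n) (x : EE n) : act g⁻¹ (act g x) = x := by
  rw [← act_mul, inv_mul_cancel, act_one]

theorem act_act_inv {n : ℕ} (g : GG n) (x : EE n) : act g (act g⁻¹ x) = x := by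
  rw [← act_mul, mul_inv_cancel, act_one]

theorem norm_act {n : ℕ} (g : GG n) (x : EE n) : ‖act g x‖ = ‖x‖ := Unitary.norm_map g x

theorem inner_act_act {n : ℕ} (g : GG n) (x y : EE n) :
    inner ℝ (act g x) (act g y) = inner ℝ x y := Unitary.inner_map_map g x y

theorem inner_act {n : ℕ} (g : GG n) (x y : EE n) :
    inner ℝ x (act g y) = inner ℝ (act g⁻¹ x) y := by
  rw [← inner_act_act g (act g⁻¹ x) y, act_act_inv]

theorem continuous_act {n : ℕ} : Continuous (fun p : GG n × EE n => act p.1 p.2) := by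
  unfold act
  have h1 : Continuous (fun p : GG n × EE n => (p.1 : EE n →L[ℝ] EE n)) :=
    continuous_subtype_val.comp continuous_fst
  exact h1.clm_apply continuous_snd

/-- isometry attached to a group element -/
noncomputable def isoOf {n : ℕ} (g : GG n) : EE n ≃ₗᵢ[ℝ] EE n := Unitary.linearIsometryEquiv g

theorem isoOf_apply {n : ℕ} (g : GG n) (x : EE n) : isoOf g x = act g x := rfl

/-- The reflection in the hyperplane orthogonal to `u`. -/
noncomputable def refl {n : ℕ} (u : EE n) : GG n :=
  Unitary.linearIsometryEquiv.symm ((ℝ ∙ u)ᗮ.reflection)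

theorem act_refl {n : ℕ} (u x : EE n) : act (refl u) x = (ℝ ∙ u)ᗮ.reflection x := rfl

theorem act_refl_formula {n : ℕ} {u : EE n} (hu : ‖u‖ = 1) (x : EE n) :
    act (refl u) x = x - (2 * inner ℝ x u) • u := by
  rw [act_refl, Submodule.reflection_orthogonal_apply, Submodule.reflection_singleton_apply]
  rw [real_inner_comm]
  simp only [hu, RCLike.ofReal_real_eq_id, id_eq, one_pow, div_one]
  module

theorem refl_mul_self {n : ℕ} (u : EE n) : refl u * refl u = 1 := by
  unfold refl
  rw [← map_mul]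
  have : (ℝ ∙ u)ᗮ.reflection * (ℝ ∙ u)ᗮ.reflection = 1 := by
    ext x
    simp
  rw [this, map_one]

theorem refl_inv {n : ℕ} (u : EE n) : (refl u)⁻¹ = refl u :=
  inv_eq_of_mul_eq_one_right (refl_mul_self u)

theorem exists_act_eq {n : ℕ} {v w : EE n} (h : ‖v‖ = ‖w‖) : ∃ g : GG n, act g v = w :=
  ⟨refl (v - w), by rw [act_refl]; exact Submodule.reflection_sub h⟩

end Pool.Agent.Work.MP_2ecbc5_gt
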