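import Mathlib

set_option autoImplicit false

open MeasureTheory Filter Topology

namespace Pool.Agent.Work.MP_2ecbc5_gt

section Abstract

set_option linter.unusedSectionVars false

variable {G : Type*} [Group G] [TopologicalSpace G] [IsTopologicalGroup G] [CompactSpace G]
  [MeasurableSpace G] [BorelSpace G] (μ : Measure G) [IsFiniteMeasure μ]

/-- Integral of a continuous function. -/
noncomputable def II (F : C(G, ℝ)) : ℝ := ∫ k, F k ∂μ

omit [Group G] [IsTopologicalGroup G] in
theorem integrable_cm (F : C(G, ℝ)) : Integrable (fun k => F k) μ :=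
  F.continuous.integrable_of_hasCompactSupport (HasCompactSupport.of_compactSpace _)

omit [Group G] [IsTopologicalGroup G] in
theorem II_add (F F' : C(G, ℝ)) : II μ (F + F') = II μ F + II μ F' := by
  unfold II
  rw [← integral_add (integrable_cm μ F) (integrable_cm μ F')]
  rfl

omit [Group G] [IsTopologicalGroup G] in
theorem II_sub (F F' : C(G, ℝ)) : II μ (F - F') = II μ F - II μ F' := by
  unfold II
  rw [← integral_sub (integrable_cm μ F) (integrable_cm μ F')]
  rfl

omit [Group G] [IsTopologicalGroup G] [CompactSpace G] [BorelSpace G] [IsFiniteMeasure μ] in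
theorem II_smul (c : ℝ) (F : C(G, ℝ)) : II μ (c • F) = c * II μ F := by
  unfold II
  rw [← integral_const_mul]
  rfl

omit [Group G] [IsTopologicalGroup G] in
theorem II_mono {F F' : C(G, ℝ)} (h : ∀ k, F k ≤ F' k) : II μ F ≤ II μ F' :=
  integral_mono (integrable_cm μ F) (integrable_cm μ F') h

omit [Group G] [IsTopologicalGroup G] [CompactSpace G] [BorelSpace G] [IsFiniteMeasure μ] in
theorem II_nonneg {F : C(G, ℝ)} (h : ∀ k, 0 ≤ F k) : 0 ≤ II μ F :=
  integral_nonneg h

omit [Group G] [IsTopologicalGroup G] in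
theorem II_abs_le {F : C(G, ℝ)} {c : ℝ} (h : ∀ k, |F k| ≤ c) : |II μ F| ≤ c * μ.real Set.univ := by
  have := norm_integral_le_of_norm_le_const (μ := μ) (f := fun k => F k) (C := c)
    (Eventually.of_forall h)
  simpa [II] using this

/-- Left translation. -/
def LT (g : G) (F : C(G, ℝ)) : C(G, ℝ) := ⟨fun k => F (g⁻¹ * k), by fun_prop⟩

omit [CompactSpace G] [MeasurableSpace G] [BorelSpace G] in
@[simp] theorem LT_apply (g : G) (F : C(G, ℝ)) (k : G) : LT g F k = F (g⁻¹ * k) := rfl

omit [CompactSpace G] [IsFiniteMeasure μ] in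
theorem II_LT [μ.IsMulLeftInvariant] (g : G) (F : C(G, ℝ)) : II μ (LT g F) = II μ F := by
  unfold II
  simp only [LT_apply]
  exact integral_mul_left_eq_self (fun k => F k) g⁻¹

omit [Group G] [IsTopologicalGroup G] in
theorem II_eq_zero [μ.IsOpenPosMeasure] {F : C(G, ℝ)} (h : ∀ k, 0 ≤ F k) (h0 : II μ F = 0) :
    ∀ k, F k = 0 := by
  intro k
  by_contra hk
  have := Continuous.integral_pos_of_hasCompactSupport_nonneg_nonzero (μ := μ) F.continuous
    (HasCompactSupport.of_compactSpace _) (fun k => h k) hk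
  exact (ne_of_gt this) h0

omit [Group G] [IsTopologicalGroup G] in
theorem II_pos [μ.IsOpenPosMeasure] {F : C(G, ℝ)} (h : ∀ k, 0 ≤ F k) {k : G} (hk : F k ≠ 0) :
    0 < II μ F :=
  Continuous.integral_pos_of_hasCompactSupport_nonneg_nonzero (μ := μ) F.continuous
    (HasCompactSupport.of_compactSpace _) (fun k => h k) hk

omit [Group G] [IsTopologicalGroup G] in
theorem II_continuous : Continuous (II μ : C(G, ℝ) → ℝ) := by
  have hL : LipschitzWith (Real.toNNReal (μ.real Set.univ)) (II μ : C(G, ℝ) → ℝ) := by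
    apply LipschitzWith.of_dist_le_mul
    intro F F'
    rw [Real.dist_eq, ← II_sub, Real.coe_toNNReal _ measureReal_nonneg, mul_comm]
    apply II_abs_le
    intro k
    rw [ContinuousMap.sub_apply, ← Real.dist_eq]
    exact ContinuousMap.dist_apply_le_dist k
  exact hL.continuous

omit [Group G] [IsTopologicalGroup G] in
/-- Cauchy-Schwarz. -/
theorem II_cs (x y : C(G, ℝ)) : (II μ (x * y)) ^ 2 ≤ II μ (x * x) * II μ (y * y) := by
  have h : ∀ t : ℝ, 0 ≤ II μ (x * x) * (t * t) + (2 * II μ (x * y)) * t + II μ (y * y) := by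
    intro t
    have h1 : 0 ≤ II μ ((t • x + y) * (t • x + y)) :=
      II_nonneg μ (fun k => mul_self_nonneg _)
    have h2 : (t • x + y) * (t • x + y) = (t * t) • (x * x) + (2 * t) • (x * y) + y * y := by
      ext k; simp; ring
    rw [h2, II_add, II_add, II_smul, II_smul] at h1
    linarith
  have := discrim_le_zero h
  unfold discrim at this
  nlinarith

/-- The truncated function. -/
noncomputable def ph (r x : ℝ) : ℝ := (max (r - x) 0) ^ 2

theorem ph_nonneg (r x : ℝ) : 0 ≤ ph r x := sq_nonneg _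

theorem ph_continuous (r : ℝ) : Continuous (ph r) := by unfold ph; fun_prop

theorem ph_lip {r x y : ℝ} (hr : 0 ≤ r) (hx : 0 ≤ x) (hy : 0 ≤ y) :
    |ph r x - ph r y| ≤ 2 * r * |x - y| := by
  unfold ph
  have h1 : max (r - x) 0 ≤ r := max_le (by linarith) hr
  have h2 : max (r - y) 0 ≤ r := max_le (by linarith) hr
  have h3 : 0 ≤ max (r - x) 0 := le_max_right _ _
  have h4 : 0 ≤ max (r - y) 0 := le_max_right _ _
  have h5 : |max (r - x) 0 - max (r - y) 0| ≤ |x - y| := by
    have := abs_max_sub_max_le_abs (r - x) (r - y) 0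
    calc _ ≤ |r - x - (r - y)| := this
      _ = |x - y| := by rw [show r - x - (r - y) = -(x - y) by ring, abs_neg]
  have h6 : (max (r - x) 0) ^ 2 - (max (r - y) 0) ^ 2
      = (max (r - x) 0 + max (r - y) 0) * (max (r - x) 0 - max (r - y) 0) := by ring
  rw [h6, abs_mul, abs_of_nonneg (by positivity : 0 ≤ max (r - x) 0 + max (r - y) 0)]
  have h7 : max (r - x) 0 + max (r - y) 0 ≤ 2 * r := by linarith
  exact mul_le_mul h7 h5 (abs_nonneg _) (by linarith)

theorem ph_second {r z d : ℝ} :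
    |(ph r (z + d) + ph r (z - d)) / 2 - ph r z| ≤ d ^ 2 := by
  unfold ph
  rcases le_total (r - (z + d)) 0 with h1 | h1 <;> rcases le_total (r - (z - d)) 0 with h2 | h2 <;>
    rcases le_total (r - z) 0 with h3 | h3 <;>
    simp only [max_eq_left, max_eq_right, h1, h2, h3] <;> rw [abs_le] <;> constructor <;> nlinarith

/-- The squared distance. -/
noncomputable def DD (F A : C(G, ℝ)) : ℝ := II μ ((F - A) * (F - A))

omit [Group G] [IsTopologicalGroup G] [CompactSpace G] [BorelSpace G] [IsFiniteMeasure μ] in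
theorem DD_nonneg (F A : C(G, ℝ)) : 0 ≤ DD μ F A := II_nonneg μ (fun k => mul_self_nonneg _)

omit [CompactSpace G] [IsFiniteMeasure μ] in
theorem DD_LT [μ.IsMulLeftInvariant] (s g : G) (F A : C(G, ℝ)) :
    DD μ (LT s F) (LT g A) = DD μ F (LT (s⁻¹ * g) A) := by
  unfold DD
  rw [← II_LT μ s ((F - LT (s⁻¹ * g) A) * (F - LT (s⁻¹ * g) A))]
  congr 1
  ext k
  simp [mul_assoc]

omit [MeasurableSpace G] [BorelSpace G] in
theorem continuous_LT (F : C(G, ℝ)) : Continuous (fun g : G => LT g F) := by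
  let h : C(G × G, ℝ) := ⟨fun p => F (p.1⁻¹ * p.2), by fun_prop⟩
  exact (ContinuousMap.curry h).continuous

theorem continuous_DD_pair (A : C(G, ℝ)) :
    Continuous (fun p : C(G, ℝ) × G => DD μ p.1 (LT p.2 A)) := by
  unfold DD
  have h1 : Continuous (fun p : C(G, ℝ) × G => LT p.2 A) := (continuous_LT A).comp continuous_snd
  exact (II_continuous μ).comp ((continuous_fst.sub h1).mul (continuous_fst.sub h1))

/-- the integrand as a continuous function -/
noncomputable def phiFun (r : ℝ) (A F : C(G, ℝ)) : C(G, ℝ) :=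
  ⟨fun g => ph r (DD μ F (LT g A)), by
    have h := continuous_DD_pair μ A
    exact (ph_continuous r).comp (h.comp (by fun_prop : Continuous (fun g : G => (F, g))))⟩

/-- The invariant functional. -/
noncomputable def Ph (r : ℝ) (A F : C(G, ℝ)) : ℝ := II μ (phiFun μ r A F)

theorem Ph_continuous (r : ℝ) (A : C(G, ℝ)) : Continuous (Ph μ r A) := by
  let h : C(C(G, ℝ) × G, ℝ) := ⟨fun p => ph r (DD μ p.1 (LT p.2 A)),
    (ph_continuous r).comp (continuous_DD_pair μ A)⟩
  have h1 : Continuous (phiFun μ r A) := (ContinuousMap.curry h).continuous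
  exact (II_continuous μ).comp h1

theorem Ph_LT [μ.IsMulLeftInvariant] (r : ℝ) (A F : C(G, ℝ)) (s : G) :
    Ph μ r A (LT s F) = Ph μ r A F := by
  unfold Ph
  rw [← II_LT μ s (phiFun μ r A F)]
  congr 1
  ext g
  simp only [phiFun, ContinuousMap.coe_mk, LT_apply]
  rw [DD_LT]

/-- one-step estimate, first part -/
theorem Ph_half [μ.IsMulLeftInvariant] {r R : ℝ} (hr : 0 ≤ r) (A F : C(G, ℝ)) (s : G)
    (hA : ∀ k, |A k| ≤ R) (hF : ∀ k, |F k| ≤ R) :
    |Ph μ r A F - Ph μ r A ((1/2 : ℝ) • (F + LT s F))| ≤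
      (2 * r + 16 * R ^ 2 * μ.real Set.univ) * μ.real Set.univ *
        II μ (((1/2 : ℝ) • (F - LT s F)) * ((1/2 : ℝ) • (F - LT s F))) := by
  have hR : 0 ≤ R := (abs_nonneg _).trans (hA 1)
  set p : C(G, ℝ) := (1/2 : ℝ) • (F + LT s F) with hp
  set q : C(G, ℝ) := (1/2 : ℝ) • (F - LT s F) with hq
  set Q := II μ (q * q) with hQ
  have hQ0 : 0 ≤ Q := II_nonneg μ (fun k => mul_self_nonneg _)
  have hF1 : F = p + q := by ext k; simp [hp, hq]; ring
  have hF2 : LT s F = p - q := by ext k; simp [hp, hq]; ring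
  have hpb : ∀ k, |p k| ≤ R := by
    intro k
    have h1 := abs_le.1 (hF k)
    have h2 := abs_le.1 (hF (s⁻¹ * k))
    simp only [hp, ContinuousMap.smul_apply, ContinuousMap.add_apply, LT_apply, smul_eq_mul]
    rw [abs_le]; constructor <;> linarith [h1.1, h1.2, h2.1, h2.2]
  have key : ∀ g : G, |(ph r (DD μ F (LT g A)) + ph r (DD μ (LT s F) (LT g A))) / 2
      - ph r (DD μ p (LT g A))| ≤ (2 * r + 16 * R ^ 2 * μ.real Set.univ) * Q := by
    intro g
    set a := LT g A with ha
    set S := DD μ p a with hS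
    have hS0 : 0 ≤ S := DD_nonneg μ p a
    set c := II μ ((p - a) * q) with hc
    have e1 : DD μ F a = S + Q + 2 * c := by
      have : (F - a) * (F - a) = (p - a) * (p - a) + q * q + (2:ℝ) • ((p - a) * q) := by
        rw [hF1]; ext k; simp; ring
      unfold DD at hS ⊢
      rw [this, II_add, II_add, II_smul, ← hS]
    have e2 : DD μ (LT s F) a = S + Q - 2 * c := by
      have : (LT s F - a) * (LT s F - a) = (p - a) * (p - a) + q * q - (2:ℝ) • ((p - a) * q) := by
        rw [hF2]; ext k; simp; ring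
      unfold DD at hS ⊢
      rw [this, II_sub, II_add, II_smul, ← hS]
    have hcs : c ^ 2 ≤ S * Q := II_cs μ (p - a) q
    have hSb : S ≤ 4 * R ^ 2 * μ.real Set.univ := by
      have : |S| ≤ 4 * R ^ 2 * μ.real Set.univ := by
        apply II_abs_le
        intro k
        have h1 := abs_le.1 (hpb k)
        have h2 := abs_le.1 (hA (g⁻¹ * k))
        simp only [ContinuousMap.mul_apply, ContinuousMap.sub_apply, ha, LT_apply]
        rw [abs_mul_self]
        nlinarith [h1.1, h1.2, h2.1, h2.2]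
      exact (le_abs_self _).trans this
    have hc2 : (2 * c) ^ 2 ≤ 16 * R ^ 2 * μ.real Set.univ * Q := by nlinarith
    have h3 := ph_second (r := r) (z := S + Q) (d := 2 * c)
    have h4 := ph_lip (r := r) (x := S + Q) (y := S) hr (by linarith) hS0
    rw [show S + Q - S = Q by ring, abs_of_nonneg hQ0] at h4
    rw [e1, e2]
    calc |(ph r (S + Q + 2 * c) + ph r (S + Q - 2 * c)) / 2 - ph r S|
        = |((ph r (S + Q + 2 * c) + ph r (S + Q - 2 * c)) / 2 - ph r (S + Q)) +
            (ph r (S + Q) - ph r S)| := by congr 1; ring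
      _ ≤ (2 * c) ^ 2 + 2 * r * Q := (abs_add_le _ _).trans (add_le_add h3 h4)
      _ ≤ (2 * r + 16 * R ^ 2 * μ.real Set.univ) * Q := by linarith
  have hinv : Ph μ r A F = II μ ((1/2 : ℝ) • (phiFun μ r A F + phiFun μ r A (LT s F))) := by
    rw [II_smul, II_add]
    have := Ph_LT μ r A F s
    unfold Ph at this ⊢
    rw [this]; ring
  rw [hinv]
  unfold Ph
  rw [← II_sub]
  have := II_abs_le μ (F := (1/2 : ℝ) • (phiFun μ r A F + phiFun μ r A (LT s F)) - phiFun μ r A p)
    (c := (2 * r + 16 * R ^ 2 * μ.real Set.univ) * Q) (by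
      intro g
      have := key g
      simp only [ContinuousMap.sub_apply, ContinuousMap.smul_apply, ContinuousMap.add_apply,
        phiFun, ContinuousMap.coe_mk, smul_eq_mul]
      rw [show (1/2 : ℝ) * (ph r (DD μ F (LT g A)) + ph r (DD μ (LT s F) (LT g A)))
        = (ph r (DD μ F (LT g A)) + ph r (DD μ (LT s F) (LT g A))) / 2 by ring]
      exact this)
  calc _ ≤ _ := this
    _ = _ := by ring

/-- one-step estimate, second part -/
theorem Ph_sub {r R : ℝ} (hr : 0 ≤ r) (A p F' : C(G, ℝ))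
    (hA : ∀ k, |A k| ≤ R) (hp : ∀ k, |p k| ≤ R) (hF' : ∀ k, |F' k| ≤ R) (hle : ∀ k, F' k ≤ p k) :
    |Ph μ r A p - Ph μ r A F'| ≤
      (8 * r * R * μ.real Set.univ) * II μ (p - F') := by
  have hR : 0 ≤ R := (abs_nonneg _).trans (hA 1)
  have hE0 : 0 ≤ II μ (p - F') := II_nonneg μ (fun k => by simpa using hle k)
  have key : ∀ g : G, |ph r (DD μ p (LT g A)) - ph r (DD μ F' (LT g A))| ≤
      8 * r * R * II μ (p - F') := by
    intro g
    set a := LT g A with ha
    have h1 := ph_lip (r := r) (x := DD μ p a) (y := DD μ F' a) hr (DD_nonneg μ _ _)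
      (DD_nonneg μ _ _)
    have h2 : |DD μ p a - DD μ F' a| ≤ 4 * R * II μ (p - F') := by
      unfold DD
      rw [← II_sub, ← II_smul, abs_le, neg_eq_neg_one_mul, ← II_smul]
      constructor
      · apply II_mono
        intro k
        have h1 := abs_le.1 (hp k)
        have h2 := abs_le.1 (hA (g⁻¹ * k))
        have h3 := abs_le.1 (hF' k)
        have h4 := hle k
        simp only [ContinuousMap.mul_apply, ContinuousMap.sub_apply, ContinuousMap.smul_apply,
          smul_eq_mul, ha, LT_apply]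
        nlinarith [mul_nonneg (sub_nonneg.2 h4)
          (by linarith [h1.1, h2.2, h3.1] : 0 ≤ p k + F' k - 2 * A (g⁻¹ * k) + 4 * R)]
      · apply II_mono
        intro k
        have h1 := abs_le.1 (hp k)
        have h2 := abs_le.1 (hA (g⁻¹ * k))
        have h3 := abs_le.1 (hF' k)
        have h4 := hle k
        simp only [ContinuousMap.mul_apply, ContinuousMap.sub_apply, ContinuousMap.smul_apply,
          smul_eq_mul, ha, LT_apply]
        nlinarith [mul_nonneg (sub_nonneg.2 h4)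
          (by linarith [h1.2, h2.1, h3.2] : 0 ≤ 4 * R - (p k + F' k - 2 * A (g⁻¹ * k)))]
    calc _ ≤ _ := h1
      _ ≤ 2 * r * (4 * R * II μ (p - F')) := by gcongr
      _ = _ := by ring
  unfold Ph
  rw [← II_sub]
  have := II_abs_le μ (F := phiFun μ r A p - phiFun μ r A F')
    (c := 8 * r * R * II μ (p - F')) (fun g => by
      simpa [phiFun] using key g)
  calc _ ≤ _ := this
    _ = _ := by ring

/-- Convergence of the invariants. -/
theorem Ph_tendsto [μ.IsMulLeftInvariant] {r R : ℝ} (hr : 0 ≤ r) (A : C(G, ℝ))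
    (hA : ∀ k, |A k| ≤ R) (F : ℕ → C(G, ℝ)) (hF : ∀ i k, |F i k| ≤ R) (s : ℕ → G)
    (hs : ∀ i k, F (i + 1) k ≤ (F i k + F i ((s i)⁻¹ * k)) / 2) :
    ∃ c, Tendsto (fun i => Ph μ r A (F i)) atTop (𝓝 c) := by
  have hR : 0 ≤ R := (abs_nonneg _).trans (hA 1)
  set m := μ.real Set.univ with hm
  have hm0 : 0 ≤ m := measureReal_nonneg
  set C1 := (2 * r + 16 * R ^ 2 * m) * m with hC1
  set C2 := 8 * r * R * m with hC2
  have hC1' : 0 ≤ C1 := by positivity
  have hC2' : 0 ≤ C2 := by positivity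
  -- Lyapunov function
  let M : C(G, ℝ) → ℝ := fun F => C1 * (II μ (F * F) + 2 * R * II μ F) + C2 * II μ F
  have step : ∀ i, |Ph μ r A (F i) - Ph μ r A (F (i + 1))| ≤ M (F i) - M (F (i + 1)) := by
    intro i
    set p : C(G, ℝ) := (1/2 : ℝ) • (F i + LT (s i) (F i)) with hp
    set q : C(G, ℝ) := (1/2 : ℝ) • (F i - LT (s i) (F i)) with hq
    have hpb : ∀ k, |p k| ≤ R := by
      intro k
      have h1 := abs_le.1 (hF i k)
      have h2 := abs_le.1 (hF i ((s i)⁻¹ * k))
      simp only [hp, ContinuousMap.smul_apply, ContinuousMap.add_apply, LT_apply, smul_eq_mul]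
      rw [abs_le]; constructor <;> linarith [h1.1, h1.2, h2.1, h2.2]
    have hle : ∀ k, F (i + 1) k ≤ p k := by
      intro k
      have := hs i k
      simp only [hp, ContinuousMap.smul_apply, ContinuousMap.add_apply, LT_apply, smul_eq_mul]
      linarith
    have h1 := Ph_half μ hr A (F i) (s i) hA (hF i)
    have h2 := Ph_sub μ hr A p (F (i + 1)) hA hpb (hF (i + 1)) hle
    rw [← hp, ← hq, ← hm, ← hC1] at h1
    rw [← hm, ← hC2] at h2
    have hIp : II μ p = II μ (F i) := by
      rw [hp, II_smul, II_add, II_LT]; ring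
    have hE : II μ (p - F (i + 1)) = II μ (F i) - II μ (F (i + 1)) := by
      rw [II_sub, hIp]
    have hpq : II μ (p * p) + II μ (q * q) = II μ (F i * F i) := by
      rw [← II_add]
      have : p * p + q * q = (1/2 : ℝ) • (F i * F i + LT (s i) (F i * F i)) := by
        ext k; simp [hp, hq]; ring
      rw [this, II_smul, II_add, II_LT]; ring
    have hpp : II μ (F (i + 1) * F (i + 1)) - 2 * R * (II μ (F i) - II μ (F (i + 1))) ≤
        II μ (p * p) := by
      rw [← hE, ← II_smul, ← II_sub]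
      apply II_mono
      intro k
      have h3 := abs_le.1 (hF (i + 1) k)
      have h4 := hle k
      have h5 := abs_le.1 (hpb k)
      simp only [ContinuousMap.mul_apply, ContinuousMap.sub_apply, ContinuousMap.smul_apply,
          smul_eq_mul]
      nlinarith [mul_nonneg (sub_nonneg.2 h4)
        (by linarith [h3.1, h5.1] : 0 ≤ p k + F (i + 1) k + 2 * R)]
    have hqq : II μ (q * q) ≤ (II μ (F i * F i) + 2 * R * II μ (F i)) -
        (II μ (F (i + 1) * F (i + 1)) + 2 * R * II μ (F (i + 1))) := by linarith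
    calc |Ph μ r A (F i) - Ph μ r A (F (i + 1))|
        = |(Ph μ r A (F i) - Ph μ r A p) + (Ph μ r A p - Ph μ r A (F (i + 1)))| := by
          congr 1; ring
      _ ≤ C1 * II μ (q * q) + C2 * II μ (p - F (i + 1)) :=
          (abs_add_le _ _).trans (add_le_add h1 h2)
      _ ≤ C1 * ((II μ (F i * F i) + 2 * R * II μ (F i)) -
        (II μ (F (i + 1) * F (i + 1)) + 2 * R * II μ (F (i + 1)))) +
          C2 * (II μ (F i) - II μ (F (i + 1))) := by
            rw [hE]; gcongr
      _ = M (F i) - M (F (i + 1)) := by simp only [M]; ring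
  -- bounds
  have hIb : ∀ i, -(R * m) ≤ II μ (F i) := fun i =>
    (abs_le.1 (II_abs_le μ (hF i))).1
  have hMb : ∀ i, -(C1 * (2 * R * (R * m)) + C2 * (R * m)) ≤ M (F i) := by
    intro i
    have h1 := hIb i
    have h2 : 0 ≤ II μ (F i * F i) := II_nonneg μ (fun k => mul_self_nonneg _)
    have h3 : -(2 * R * (R * m)) ≤ II μ (F i * F i) + 2 * R * II μ (F i) := by nlinarith
    simp only [M]
    nlinarith [mul_le_mul_of_nonneg_left h3 hC1', mul_le_mul_of_nonneg_left h1 hC2']
  have hPh0 : ∀ i, 0 ≤ Ph μ r A (F i) := fun i => II_nonneg μ (fun g => ph_nonneg _ _)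
  have hPhb : ∀ i, Ph μ r A (F i) ≤ r ^ 2 * m := by
    intro i
    have : |Ph μ r A (F i)| ≤ r ^ 2 * m := by
      apply II_abs_le
      intro g
      simp only [phiFun, ContinuousMap.coe_mk]
      rw [abs_of_nonneg (ph_nonneg _ _)]
      unfold ph
      have h1 : max (r - DD μ (F i) (LT g A)) 0 ≤ r := max_le (by linarith [DD_nonneg μ (F i) (LT g A)]) hr
      have h2 : 0 ≤ max (r - DD μ (F i) (LT g A)) 0 := le_max_right _ _
      gcongr
    exact (le_abs_self _).trans this
  have hanti1 : Antitone (fun i => M (F i) + Ph μ r A (F i)) := by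
    apply antitone_nat_of_succ_le
    intro i
    have := abs_le.1 (step i)
    linarith [this.1, this.2]
  have hanti2 : Antitone (fun i => M (F i) - Ph μ r A (F i)) := by
    apply antitone_nat_of_succ_le
    intro i
    have := abs_le.1 (step i)
    linarith [this.1, this.2]
  have hb1 : BddBelow (Set.range (fun i => M (F i) + Ph μ r A (F i))) := by
    refine ⟨-(C1 * (2 * R * (R * m)) + C2 * (R * m)), ?_⟩
    rintro _ ⟨i, rfl⟩
    have := hMb i
    have := hPh0 i
    simp only; linarith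
  have hb2 : BddBelow (Set.range (fun i => M (F i) - Ph μ r A (F i))) := by
    refine ⟨-(C1 * (2 * R * (R * m)) + C2 * (R * m)) - r ^ 2 * m, ?_⟩
    rintro _ ⟨i, rfl⟩
    have := hMb i
    have := hPhb i
    simp only; linarith
  have t1 := tendsto_atTop_ciInf hanti1 hb1
  have t2 := tendsto_atTop_ciInf hanti2 hb2
  refine ⟨((⨅ i, (M (F i) + Ph μ r A (F i))) - ⨅ i, (M (F i) - Ph μ r A (F i))) / 2, ?_⟩
  have t3 := (t1.sub t2).div_const 2
  refine t3.congr ?_
  intro i
  ring

/-- The abstract shape-convergence theorem. -/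
theorem shape_abstract [μ.IsMulLeftInvariant] [μ.IsOpenPosMeasure]
    (𝒦 : Set C(G, ℝ)) (h𝒦 : IsCompact 𝒦) (F : ℕ → C(G, ℝ)) (hF𝒦 : ∀ i, F i ∈ 𝒦)
    (s : ℕ → G)
    (hs : ∀ i k, F (i + 1) k ≤ (F i k + F i ((s i)⁻¹ * k)) / 2) :
    ∃ (Fs : C(G, ℝ)) (g : ℕ → G), Tendsto (fun i => dist (LT (g i) (F i)) Fs) atTop (𝓝 0) := by
  -- uniform bound
  obtain ⟨R, hR⟩ : ∃ R : ℝ, ∀ F ∈ 𝒦, ‖F‖ ≤ R := h𝒦.isBounded.exists_norm_le
  have hRb : ∀ F ∈ 𝒦, ∀ k, |F k| ≤ R := fun F hF k =>
    (ContinuousMap.norm_coe_le_norm F k).trans (hR F hF)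
  obtain ⟨Fs, hFs, φ, hφ, hlim⟩ := h𝒦.tendsto_subseq hF𝒦
  -- good minimizers
  have hmin : ∀ i, ∃ g : G, ∀ g' : G, dist (LT g (F i)) Fs ≤ dist (LT g' (F i)) Fs := by
    intro i
    obtain ⟨g, -, hg⟩ := isCompact_univ.exists_isMinOn (Set.univ_nonempty (α := G))
      (f := fun g => dist (LT g (F i)) Fs)
      ((continuous_LT (F i)).dist continuous_const).continuousOn
    exact ⟨g, fun g' => hg (Set.mem_univ g')⟩
  choose g hg using hmin
  refine ⟨Fs, g, ?_⟩
  rw [Metric.tendsto_atTop]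
  by_contra hcon
  push Not at hcon
  obtain ⟨ε, hε, hcon⟩ := hcon
  have hfreq : ∃ᶠ i in atTop, ε ≤ dist (LT (g i) (F i)) Fs := by
    rw [Filter.frequently_atTop]
    intro N
    obtain ⟨n, hn, h⟩ := hcon N
    refine ⟨n, hn, ?_⟩
    rw [Real.dist_eq, sub_zero, abs_of_nonneg dist_nonneg] at h
    exact h
  obtain ⟨ψ, hψ, hψε⟩ := Filter.extraction_of_frequently_atTop hfreq
  obtain ⟨F', hF', χ, hχ, hlim'⟩ := h𝒦.tendsto_subseq (fun i => hF𝒦 (ψ i))
  -- F' is at distance at least ε from the orbit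
  have hfar : ∀ k : G, ε ≤ dist (LT k F') Fs := by
    intro k
    have hcont : Continuous (fun F : C(G, ℝ) => dist (LT k F) Fs) := by
      have : Continuous (fun F : C(G, ℝ) => LT k F) :=
        ContinuousMap.continuous_precomp (⟨fun x => k⁻¹ * x, by fun_prop⟩ : C(G, G))
      exact this.dist continuous_const
    have h1 : Tendsto (fun i => dist (LT k (F (ψ (χ i)))) Fs) atTop (𝓝 (dist (LT k F') Fs)) :=
      (hcont.tendsto F').comp hlim'
    refine ge_of_tendsto h1 (Eventually.of_forall fun i => ?_)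
    exact (hψε (χ i)).trans (hg _ _)
  -- the invariants agree
  have hinv : ∀ r : ℝ, 0 < r → Ph μ r Fs F' = Ph μ r Fs Fs := by
    intro r hr
    obtain ⟨c, hc⟩ := Ph_tendsto μ hr.le Fs (hRb Fs hFs) F (fun i => hRb _ (hF𝒦 i)) s hs
    have h1 : Tendsto (fun i => Ph μ r Fs (F (φ i))) atTop (𝓝 (Ph μ r Fs Fs)) :=
      ((Ph_continuous μ r Fs).tendsto Fs).comp hlim
    have h2 : Tendsto (fun i => Ph μ r Fs (F (ψ (χ i)))) atTop (𝓝 (Ph μ r Fs F')) :=
      ((Ph_continuous μ r Fs).tendsto F').comp hlim'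
    have h1' : Tendsto (fun i => Ph μ r Fs (F (φ i))) atTop (𝓝 c) :=
      hc.comp hφ.tendsto_atTop
    have h2' : Tendsto (fun i => Ph μ r Fs (F (ψ (χ i)))) atTop (𝓝 c) :=
      hc.comp (hψ.tendsto_atTop.comp hχ.tendsto_atTop)
    rw [tendsto_nhds_unique h1 h1', tendsto_nhds_unique h2 h2']
  have hLT1 : LT (1 : G) Fs = Fs := by ext k; simp
  have hpos : ∀ r : ℝ, 0 < r → 0 < Ph μ r Fs Fs := by
    intro r hr
    apply II_pos μ (fun g => ph_nonneg _ _) (k := 1)
    simp only [phiFun, ContinuousMap.coe_mk, hLT1]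
    have : DD μ Fs Fs = 0 := by
      unfold DD
      have : (Fs - Fs) * (Fs - Fs) = (0 : ℝ) • Fs := by ext k; simp
      rw [this, II_smul]; simp
    rw [this]
    unfold ph
    rw [sub_zero, max_eq_left hr.le]
    positivity
  -- hence there are near-minimizers
  obtain ⟨k, -, hk⟩ := isCompact_univ.exists_isMinOn (Set.univ_nonempty (α := G))
      (f := fun k => DD μ F' (LT k Fs))
      ((continuous_DD_pair μ Fs).comp (by fun_prop : Continuous (fun g : G => (F', g)))).continuousOn
  have hk0 : DD μ F' (LT k Fs) = 0 := by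
    by_contra hne
    have hpos' : 0 < DD μ F' (LT k Fs) := lt_of_le_of_ne (DD_nonneg μ _ _) (Ne.symm hne)
    have h1 : Ph μ (DD μ F' (LT k Fs)) Fs F' = 0 := by
      unfold Ph II
      apply integral_eq_zero_of_ae
      refine Eventually.of_forall fun g => ?_
      simp only [phiFun, ContinuousMap.coe_mk, Pi.zero_apply]
      unfold ph
      have : DD μ F' (LT k Fs) ≤ DD μ F' (LT g Fs) := hk (Set.mem_univ g)
      rw [max_eq_right (by linarith)]; simp
    have h2 := hpos _ hpos'
    rw [← hinv _ hpos', h1] at h2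
    exact lt_irrefl _ h2
  have hEq : F' = LT k Fs := by
    ext x
    have := II_eq_zero μ (F := (F' - LT k Fs) * (F' - LT k Fs)) (fun k => mul_self_nonneg _) hk0 x
    have h3 : F' x - LT k Fs x = 0 := mul_self_eq_zero.1 this
    linarith
  have h4 := hfar k⁻¹
  have h5 : LT k⁻¹ F' = Fs := by
    rw [hEq]; ext x; simp [mul_assoc]
  rw [h5, dist_self] at h4
  linarith

end Abstract

end Pool.Agent.Work.MP_2ecbc5_gt
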