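import Mathlib
import Pool.Agent.Work.MP_2ecbc5_gt.Invar
import Pool.Agent.Work.MP_2ecbc5_gt.Group

set_option autoImplicit false

open MeasureTheory Filter Topology TopologicalSpace

namespace Pool.Agent.Work.MP_2ecbc5_gt

variable {n : ℕ}

/-- Support function. -/
noncomputable def sp (K : Set (EE n)) (y : EE n) : ℝ := sSup ((fun x => inner ℝ x y) '' K)

theorem sp_le {K : Set (EE n)} (hK : K.Nonempty) {y : EE n} {c : ℝ}
    (h : ∀ x ∈ K, inner ℝ x y ≤ c) : sp K y ≤ c := by
  apply csSup_le (hK.image _)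
  rintro _ ⟨x, hx, rfl⟩
  exact h x hx

theorem le_sp {K : Set (EE n)} (hK : IsCompact K) {x y : EE n} (hx : x ∈ K) :
    inner ℝ x y ≤ sp K y := by
  apply le_csSup
  · exact (hK.image (by fun_prop)).bddAbove
  · exact ⟨x, hx, rfl⟩

theorem sp_sub_le {K : Set (EE n)} (hK : IsCompact K) (hne : K.Nonempty) {R : ℝ}
    (hR : ∀ x ∈ K, ‖x‖ ≤ R) (y y' : EE n) : sp K y ≤ sp K y' + R * ‖y - y'‖ := by
  apply sp_le hne
  intro x hx
  have h1 : inner ℝ x y = inner ℝ x y' + inner ℝ x (y - y') := by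
    rw [← inner_add_right]; congr 1; abel
  rw [h1]
  have h2 : inner ℝ x (y - y') ≤ R * ‖y - y'‖ :=
    (real_inner_le_norm _ _).trans (mul_le_mul_of_nonneg_right (hR x hx) (norm_nonneg _))
  linarith [le_sp hK (y := y') hx]

theorem sp_continuous {K : Set (EE n)} (hK : IsCompact K) (hne : K.Nonempty) :
    Continuous (sp K) := by
  obtain ⟨R, hR⟩ := hK.isBounded.exists_norm_le
  have hR0 : 0 ≤ R := by
    obtain ⟨x, hx⟩ := hne
    exact (norm_nonneg _).trans (hR x hx)
  have : LipschitzWith (Real.toNNReal R) (sp K) := by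
    apply LipschitzWith.of_dist_le_mul
    intro y y'
    rw [Real.dist_eq, Real.coe_toNNReal _ hR0, dist_eq_norm, abs_le]
    have h1 := sp_sub_le hK hne hR y y'
    have h2 := sp_sub_le hK hne hR y' y
    rw [norm_sub_rev] at h2
    constructor <;> linarith
  exact this.continuous

theorem sp_sub_hausdorff {K L : NonemptyCompacts (EE n)} {y : EE n} (hy : ‖y‖ = 1) :
    sp (K : Set (EE n)) y ≤ sp (L : Set (EE n)) y + dist K L := by
  apply sp_le K.nonempty
  intro x hx
  apply le_of_forall_pos_le_add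
  intro ε hε
  obtain ⟨z, hz, hxz⟩ := Metric.exists_dist_lt_of_hausdorffDist_lt (s := (K : Set (EE n)))
    (t := (L : Set (EE n))) (x := x) (r := dist K L + ε) hx
    (by rw [← Metric.NonemptyCompacts.dist_eq]; linarith)
    (Metric.hausdorffEDist_ne_top_of_nonempty_of_bounded K.nonempty L.nonempty
      K.isCompact.isBounded L.isCompact.isBounded)
  have h1 : inner ℝ x y = inner ℝ z y + inner ℝ (x - z) y := by
    rw [← inner_add_left]; congr 1; abel
  have h2 : inner ℝ (x - z) y ≤ dist K L + ε := by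
    have := real_inner_le_norm (x - z) y
    rw [hy, mul_one, ← dist_eq_norm] at this
    linarith
  rw [h1]
  linarith [le_sp L.isCompact (y := y) hz]

theorem hausdorff_of_sp {K L : Set (EE n)} (hK : IsCompact K) (hL : IsCompact L)
    (hKn : K.Nonempty) (hLn : L.Nonempty) (hLc : Convex ℝ L) {ε : ℝ} (hε : 0 ≤ ε)
    (h : ∀ y : EE n, ‖y‖ = 1 → sp K y ≤ sp L y + ε) : ∀ x ∈ K, ∃ z ∈ L, dist x z ≤ ε := by
  intro x hx
  obtain ⟨z, hz, hzm⟩ := exists_norm_eq_iInf_of_complete_convex hLn hL.isComplete hLc x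
  refine ⟨z, hz, ?_⟩
  rw [norm_eq_iInf_iff_real_inner_le_zero hLc hz] at hzm
  by_contra hcon
  push Not at hcon
  rw [dist_eq_norm] at hcon
  have hd : 0 < ‖x - z‖ := lt_of_le_of_lt hε hcon
  set y : EE n := (‖x - z‖)⁻¹ • (x - z) with hy
  have hy1 : ‖y‖ = 1 := by
    rw [hy, norm_smul, norm_inv, norm_norm, inv_mul_cancel₀ hd.ne']
  have h1 : sp L y ≤ inner ℝ z y := by
    apply sp_le hLn
    intro w hw
    have := hzm w hw
    rw [hy, inner_smul_right, inner_smul_right]
    apply mul_le_mul_of_nonneg_left _ (inv_nonneg.2 hd.le)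
    have e : inner ℝ w (x - z) = inner ℝ z (x - z) + inner ℝ (x - z) (w - z) := by
      rw [real_inner_comm (w - z) (x - z), ← inner_add_left]; congr 1; abel
    rw [e]; linarith
  have h2 := le_sp hK (y := y) hx
  have h3 := h y hy1
  have h4 : inner ℝ x y - inner ℝ z y = ‖x - z‖ := by
    rw [← inner_sub_left, hy, inner_smul_right, real_inner_self_eq_norm_sq]
    field_simp
  linarith

theorem sp_image_act (g : GG n) (K : Set (EE n)) (y : EE n) :
    sp (act g '' K) y = sp K (act g⁻¹ y) := by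
  unfold sp
  congr 1
  ext t
  constructor
  · rintro ⟨_, ⟨x, hx, rfl⟩, rfl⟩
    refine ⟨x, hx, ?_⟩
    simp only
    rw [inner_act, inv_inv]
  · rintro ⟨x, hx, rfl⟩
    refine ⟨_, ⟨x, hx, rfl⟩, ?_⟩
    simp only
    rw [inner_act, inv_inv]

/-- The function on the group attached to a body. -/
noncomputable def FF (x₀ : EE n) (K : NonemptyCompacts (EE n)) : C(GG n, ℝ) :=
  ⟨fun g => sp (K : Set (EE n)) (act g x₀),
    (sp_continuous K.isCompact K.nonempty).comp
      (continuous_act.comp (by fun_prop : Continuous (fun g : GG n => (g, x₀))))⟩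

theorem FF_apply (x₀ : EE n) (K : NonemptyCompacts (EE n)) (g : GG n) :
    FF x₀ K g = sp (K : Set (EE n)) (act g x₀) := rfl

theorem FF_continuous {x₀ : EE n} (hx₀ : ‖x₀‖ = 1) : Continuous (FF x₀) := by
  have : LipschitzWith 1 (FF x₀) := by
    apply LipschitzWith.of_dist_le_mul
    intro K L
    rw [NNReal.coe_one, one_mul, ContinuousMap.dist_le dist_nonneg]
    intro g
    rw [FF_apply, FF_apply, Real.dist_eq, abs_le]
    have hy : ‖act g x₀‖ = 1 := by rw [norm_act, hx₀]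
    have h1 := sp_sub_hausdorff (K := K) (L := L) hy
    have h2 := sp_sub_hausdorff (K := L) (L := K) hy
    rw [dist_comm L K] at h2
    constructor <;> linarith
  exact this.continuous

/-- Shape convergence for sequences of convex compacta with each term inside
the Minkowski symmetral of the previous one. -/
theorem shape_conv (K : ℕ → Set (EE n)) (u : ℕ → EE n) (hu : ∀ i, ‖u i‖ = 1)
    (hc : ∀ i, IsCompact (K i)) (hne : ∀ i, (K i).Nonempty) (hconv : ∀ i, Convex ℝ (K i))
    (R : ℝ) (hR : ∀ i, K i ⊆ Metric.closedBall 0 R)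
    (hM : ∀ i, ∀ z ∈ K (i + 1), ∃ a ∈ K i, ∃ b ∈ K i,
      z = (1/2 : ℝ) • (a + act (refl (u i)) b)) :
    ∃ (ψ : ℕ → (EE n ≃ₗᵢ[ℝ] EE n)) (L : Set (EE n)), IsCompact L ∧ L.Nonempty ∧
      Tendsto (fun i => Metric.hausdorffDist (ψ i '' K i) L) atTop (𝓝 0) := by
  let KK : ℕ → NonemptyCompacts (EE n) := fun i => ⟨⟨K i, hc i⟩, hne i⟩
  have hKK : ∀ i, (KK i : Set (EE n)) = K i := fun i => rfl
  set x₀ : EE n := u 0 with hx₀
  have hx₀1 : ‖x₀‖ = 1 := hu 0
  let F : ℕ → C(GG n, ℝ) := fun i => FF x₀ (KK i)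
  let 𝒦 : Set C(GG n, ℝ) := FF x₀ '' {L : NonemptyCompacts (EE n) | (L : Set (EE n)) ⊆
    Metric.closedBall 0 R}
  have h𝒦 : IsCompact 𝒦 :=
    (NonemptyCompacts.isCompact_subsets_of_isCompact (isCompact_closedBall 0 R)).image
      (FF_continuous hx₀1)
  have hF𝒦 : ∀ i, F i ∈ 𝒦 := fun i => ⟨KK i, hR i, rfl⟩
  have hs : ∀ i k, F (i + 1) k ≤ (F i k + F i ((refl (u i))⁻¹ * k)) / 2 := by
    intro i k
    simp only [F, FF_apply, act_mul]
    apply sp_le (hne (i + 1))
    intro z hz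
    obtain ⟨a, ha, b, hb, rfl⟩ := hM i z hz
    have h1 := le_sp (hc i) (y := act k x₀) ha
    have h2 := le_sp (hc i) (y := act (refl (u i))⁻¹ (act k x₀)) hb
    have h3 : inner ℝ (act (refl (u i)) b) (act k x₀) =
        inner ℝ b (act (refl (u i))⁻¹ (act k x₀)) := by
      rw [inner_act (refl (u i))⁻¹, inv_inv]
    rw [inner_smul_left, inner_add_left, h3]
    simp only [hKK, conj_trivial]
    linarith
  obtain ⟨Fs, g, hlim⟩ := shape_abstract (Measure.haar : Measure (GG n)) 𝒦 h𝒦 F hF𝒦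
    (fun i => refl (u i)) hs
  have hlim' : Tendsto (fun i => LT (g i) (F i)) atTop (𝓝 Fs) := by
    rw [tendsto_iff_dist_tendsto_zero]; exact hlim
  have hLLc : ∀ i, IsCompact (isoOf (g i) '' K i) := fun i =>
    (hc i).image (isoOf (g i)).continuous
  have hLLn : ∀ i, (isoOf (g i) '' K i).Nonempty := fun i => (hne i).image _
  have hLLcv : ∀ i, Convex ℝ (isoOf (g i) '' K i) := fun i =>
    (hconv i).is_linear_image (isoOf (g i)).toLinearEquiv.toLinearMap.isLinear
  let LL : ℕ → NonemptyCompacts (EE n) := fun i => ⟨⟨isoOf (g i) '' K i, hLLc i⟩, hLLn i⟩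
  have hsp : ∀ i k, sp (isoOf (g i) '' K i) (act k x₀) = LT (g i) (F i) k := by
    intro i k
    have : (isoOf (g i) '' K i) = act (g i) '' K i := rfl
    rw [this, sp_image_act, LT_apply, ← act_mul]
    rfl
  have hdist : ∀ i j, dist (LL i) (LL j) ≤ dist (LT (g i) (F i)) (LT (g j) (F j)) := by
    intro i j
    rw [Metric.NonemptyCompacts.dist_eq]
    have hle : ∀ i j, ∀ y : EE n, ‖y‖ = 1 → sp (isoOf (g i) '' K i) y ≤
        sp (isoOf (g j) '' K j) y + dist (LT (g i) (F i)) (LT (g j) (F j)) := by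
      intro i j y hy
      obtain ⟨k, rfl⟩ := exists_act_eq (v := x₀) (w := y) (by rw [hx₀1, hy])
      rw [hsp, hsp]
      have := ContinuousMap.dist_apply_le_dist (f := LT (g i) (F i)) (g := LT (g j) (F j)) k
      rw [Real.dist_eq] at this
      linarith [(abs_le.1 this).2]
    apply Metric.hausdorffDist_le_of_mem_dist dist_nonneg
    · exact hausdorff_of_sp (hLLc i) (hLLc j) (hLLn i) (hLLn j) (hLLcv j) dist_nonneg (hle i j)
    · intro x hx
      obtain ⟨z, hz, hxz⟩ := hausdorff_of_sp (hLLc j) (hLLc i) (hLLn j) (hLLn i) (hLLcv i)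
        dist_nonneg (hle j i) x hx
      exact ⟨z, hz, by rw [dist_comm (LT (g i) (F i))]; exact hxz⟩
  have hcauchy : CauchySeq LL := by
    have h1 := hlim'.cauchySeq
    rw [Metric.cauchySeq_iff] at h1 ⊢
    intro ε hε
    obtain ⟨N, hN⟩ := h1 ε hε
    exact ⟨N, fun m hm k hk => (hdist m k).trans_lt (hN m hm k hk)⟩
  obtain ⟨L, hL⟩ := cauchySeq_tendsto_of_complete hcauchy
  refine ⟨fun i => isoOf (g i), L, L.isCompact, L.nonempty, ?_⟩
  rw [tendsto_iff_dist_tendsto_zero] at hL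
  exact hL

end Pool.Agent.Work.MP_2ecbc5_gt
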