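import Mathlib
import Pool.Agent.Work.MP_2ecbc5_gt.Support

set_option autoImplicit false

open MeasureTheory Filter Topology TopologicalSpace

namespace Pool.Agent.Work.MP_2ecbc5_gt

variable {n : ℕ}

/-- Steiner symmetral. -/
def St (u : EE n) (K : Set (EE n)) : Set (EE n) :=
  setOf (fun y : EuclideanSpace ℝ (Fin n) =>
            ∃ x : EuclideanSpace ℝ (Fin n), ∃ t : ℝ,
              y = x + t • u ∧ inner ℝ x u = 0 ∧
              (∃ s : ℝ, x + s • u ∈ K) ∧
              2 * |t| ≤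
                (MeasureTheory.volume (setOf (fun s : ℝ => x + s • u ∈ K))).toReal)

theorem slice_eq_Icc {u : EE n} (hu : ‖u‖ = 1) {K : Set (EE n)} (hK : IsCompact K)
    (hc : Convex ℝ K) (x : EE n) (hne : ∃ s : ℝ, x + s • u ∈ K) :
    ∃ a b : ℝ, a ≤ b ∧ setOf (fun s : ℝ => x + s • u ∈ K) = Set.Icc a b := by
  set I : Set ℝ := setOf (fun s : ℝ => x + s • u ∈ K) with hI
  have hclosed : IsClosed I :=
    hK.isClosed.preimage (by fun_prop : Continuous (fun s : ℝ => x + s • u))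
  obtain ⟨R, hR⟩ := hK.isBounded.exists_norm_le
  have hb : Bornology.IsBounded I := by
    rw [isBounded_iff_forall_norm_le]
    refine ⟨R + ‖x‖, fun s hs => ?_⟩
    have h1 : ‖s • u‖ ≤ ‖x + s • u‖ + ‖x‖ := by
      calc ‖s • u‖ = ‖(x + s • u) - x‖ := by congr 1; abel
        _ ≤ _ := norm_sub_le _ _
    rw [norm_smul, hu, mul_one] at h1
    linarith [hR _ hs]
  have hcompact : IsCompact I := Metric.isCompact_of_isClosed_isBounded hclosed hb
  have hconvI : Convex ℝ I := by
    intro s hs t ht a b ha hb hab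
    have := hc hs ht ha hb hab
    have e : a • (x + s • u) + b • (x + t • u) = x + (a • s + b • t) • u := by
      have : x = (a + b) • x := by rw [hab, one_smul]
      conv_rhs => rw [this]
      simp only [smul_eq_mul]
      module
    rw [e] at this
    exact this
  have hneI : I.Nonempty := hne
  have hconn : IsConnected I := ⟨hneI, hconvI.isPreconnected⟩
  refine ⟨sInf I, sSup I, ?_, eq_Icc_of_connected_compact hconn hcompact⟩
  exact Real.sInf_le_sSup I hcompact.bddBelow hcompact.bddAbove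

theorem mem_St {u : EE n} (hu : ‖u‖ = 1) {K : Set (EE n)} (hK : IsCompact K)
    (hc : Convex ℝ K) (y : EE n) : y ∈ St u K ↔
      ∃ x : EE n, ∃ t s₁ s₂ : ℝ, y = x + t • u ∧ inner ℝ x u = 0 ∧
        x + s₁ • u ∈ K ∧ x + s₂ • u ∈ K ∧ 2 * |t| ≤ s₂ - s₁ := by
  constructor
  · rintro ⟨x, t, hy, hx, hne, hle⟩
    obtain ⟨a, b, hab, hI⟩ := slice_eq_Icc hu hK hc x hne
    refine ⟨x, t, a, b, hy, hx, ?_, ?_, ?_⟩
    · have : a ∈ setOf (fun s : ℝ => x + s • u ∈ K) := by rw [hI]; exact ⟨le_rfl, hab⟩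
      exact this
    · have : b ∈ setOf (fun s : ℝ => x + s • u ∈ K) := by rw [hI]; exact ⟨hab, le_rfl⟩
      exact this
    · rw [hI, Real.volume_Icc, ENNReal.toReal_ofReal (by linarith)] at hle
      exact hle
  · rintro ⟨x, t, s₁, s₂, hy, hx, h1, h2, hle⟩
    obtain ⟨a, b, hab, hI⟩ := slice_eq_Icc hu hK hc x ⟨s₁, h1⟩
    refine ⟨x, t, hy, hx, ⟨s₁, h1⟩, ?_⟩
    have e1 : s₁ ∈ Set.Icc a b := by rw [← hI]; exact h1
    have e2 : s₂ ∈ Set.Icc a b := by rw [← hI]; exact h2
    rw [hI, Real.volume_Icc, ENNReal.toReal_ofReal (by linarith)]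
    linarith [e1.1, e2.2]

theorem St_nonempty {u : EE n} (hu : ‖u‖ = 1) {K : Set (EE n)} (hne : K.Nonempty) :
    (St u K).Nonempty := by
  obtain ⟨a, ha⟩ := hne
  refine ⟨a - (inner ℝ a u : ℝ) • u, a - (inner ℝ a u : ℝ) • u, 0, by simp, ?_,
    ⟨inner ℝ a u, by simpa using ha⟩, by simp⟩
  rw [inner_sub_left, inner_smul_left, real_inner_self_eq_norm_sq, hu]
  simp

theorem St_convex {u : EE n} (hu : ‖u‖ = 1) {K : Set (EE n)} (hK : IsCompact K)
    (hc : Convex ℝ K) : Convex ℝ (St u K) := by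
  intro y hy y' hy' a b ha hb hab
  rw [mem_St hu hK hc] at hy hy' ⊢
  obtain ⟨x, t, s₁, s₂, rfl, hx, h1, h2, hle⟩ := hy
  obtain ⟨x', t', s₁', s₂', rfl, hx', h1', h2', hle'⟩ := hy'
  refine ⟨a • x + b • x', a * t + b * t', a * s₁ + b * s₁', a * s₂ + b * s₂', ?_, ?_, ?_, ?_, ?_⟩
  · module
  · rw [inner_add_left, inner_smul_left, inner_smul_left, hx, hx']; simp
  · have := hc h1 h1' ha hb hab
    convert! this using 1
    module
  · have := hc h2 h2' ha hb hab
    convert! this using 1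
    module
  · have h3 : |a * t + b * t'| ≤ a * |t| + b * |t'| := by
      refine (abs_add_le _ _).trans ?_
      rw [abs_mul, abs_mul, abs_of_nonneg ha, abs_of_nonneg hb]
    nlinarith

theorem St_sub {u : EE n} (hu : ‖u‖ = 1) {K : Set (EE n)} (hK : IsCompact K)
    (hc : Convex ℝ K) : ∀ z ∈ St u K, ∃ a ∈ K, ∃ b ∈ K,
      z = (1/2 : ℝ) • (a + act (refl u) b) := by
  intro z hz
  rw [mem_St hu hK hc] at hz
  obtain ⟨x, t, s₁, s₂, rfl, hx, h1, h2, hle⟩ := hz
  have hin : ∀ s, s₁ ≤ s → s ≤ s₂ → x + s • u ∈ K := by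
    intro s hs1 hs2
    rcases eq_or_lt_of_le (hs1.trans hs2) with h | h
    · have : s = s₁ := le_antisymm (h ▸ hs2) hs1
      rw [this]; exact h1
    · have := hc h1 h2 (a := (s₂ - s) / (s₂ - s₁)) (b := (s - s₁) / (s₂ - s₁))
        (div_nonneg (by linarith) (by linarith)) (div_nonneg (by linarith) (by linarith))
        (by rw [← add_div]; rw [div_eq_one_iff_eq (by linarith)]; ring)
      convert! this using 1
      have hne : s₂ - s₁ ≠ 0 := by linarith
      have e1 : (s₂ - s) / (s₂ - s₁) + (s - s₁) / (s₂ - s₁) = 1 := by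
        rw [← add_div, div_eq_one_iff_eq hne]; ring
      have e2 : (s₂ - s) / (s₂ - s₁) * s₁ + (s - s₁) / (s₂ - s₁) * s₂ = s := by
        field_simp; ring
      calc x + s • u = ((s₂ - s) / (s₂ - s₁) + (s - s₁) / (s₂ - s₁)) • x +
            ((s₂ - s) / (s₂ - s₁) * s₁ + (s - s₁) / (s₂ - s₁) * s₂) • u := by
              rw [e1, e2, one_smul]
        _ = _ := by module
  have hrefl : ∀ s : ℝ, act (refl u) (x + s • u) = x - s • u := by
    intro s
    rw [act_refl_formula hu, inner_add_left, inner_smul_left, hx, real_inner_self_eq_norm_sq, hu]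
    simp only [conj_trivial]
    module
  rcases le_total 0 t with ht | ht
  · rw [abs_of_nonneg ht] at hle
    refine ⟨x + (s₁ + 2 * t) • u, hin _ (by linarith) (by linarith), x + s₁ • u, h1, ?_⟩
    rw [hrefl]
    module
  · rw [abs_of_nonpos ht] at hle
    refine ⟨x + s₁ • u, h1, x + (s₁ - 2 * t) • u, hin _ (by linarith) (by linarith), ?_⟩
    rw [hrefl]
    module

theorem St_compact {u : EE n} (hu : ‖u‖ = 1) {K : Set (EE n)} (hK : IsCompact K)
    (hc : Convex ℝ K) : IsCompact (St u K) := by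
  obtain ⟨R, hR⟩ := hK.isBounded.exists_norm_le
  let T : Set (EE n × EE n × ℝ) := {p | p.1 ∈ K ∧ p.2.1 ∈ K ∧
    p.1 - (inner ℝ p.1 u : ℝ) • u = p.2.1 - (inner ℝ p.2.1 u : ℝ) • u ∧
    2 * |p.2.2| ≤ (inner ℝ p.2.1 u : ℝ) - inner ℝ p.1 u}
  have hT : IsCompact T := by
    apply IsCompact.of_isClosed_subset (hK.prod (hK.prod (isCompact_Icc (a := -R) (b := R))))
    · have c1 : IsClosed {p : EE n × EE n × ℝ | p.1 ∈ K} := hK.isClosed.preimage continuous_fst
      have c2 : IsClosed {p : EE n × EE n × ℝ | p.2.1 ∈ K} :=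
        hK.isClosed.preimage (continuous_fst.comp continuous_snd)
      have c3 : IsClosed {p : EE n × EE n × ℝ |
          p.1 - (inner ℝ p.1 u : ℝ) • u = p.2.1 - (inner ℝ p.2.1 u : ℝ) • u} :=
        isClosed_eq (by fun_prop) (by fun_prop)
      have c4 : IsClosed {p : EE n × EE n × ℝ |
          2 * |p.2.2| ≤ (inner ℝ p.2.1 u : ℝ) - inner ℝ p.1 u} :=
        isClosed_le (by fun_prop) (by fun_prop)
      exact c1.inter (c2.inter (c3.inter c4))
    · rintro ⟨a, b, t⟩ ⟨ha, hb, -, ht⟩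
      refine ⟨ha, hb, ?_⟩
      simp only at ht
      have h1 : |(inner ℝ a u : ℝ)| ≤ R := by
        have := abs_real_inner_le_norm a u
        rw [hu, mul_one] at this
        exact this.trans (hR a ha)
      have h2 : |(inner ℝ b u : ℝ)| ≤ R := by
        have := abs_real_inner_le_norm b u
        rw [hu, mul_one] at this
        exact this.trans (hR b hb)
      have h3 : |t| ≤ R := by
        have := abs_le.1 h1
        have := abs_le.1 h2
        linarith
      exact abs_le.1 h3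
  have himg : St u K = (fun p : EE n × EE n × ℝ => p.1 - (inner ℝ p.1 u : ℝ) • u + p.2.2 • u) '' T := by
    ext y
    rw [mem_St hu hK hc]
    constructor
    · rintro ⟨x, t, s₁, s₂, rfl, hx, h1, h2, hle⟩
      have e : ∀ s : ℝ, (inner ℝ (x + s • u) u : ℝ) = s := by
        intro s
        rw [inner_add_left, inner_smul_left, hx, real_inner_self_eq_norm_sq, hu]
        simp
      refine ⟨(x + s₁ • u, x + s₂ • u, t), ⟨h1, h2, ?_, ?_⟩, ?_⟩
      · simp only [e]; module
      · simp only [e]; exact hle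
      · simp only [e]; module
    · rintro ⟨⟨a, b, t⟩, ⟨ha, hb, hab, hle⟩, rfl⟩
      simp only at hab hle ⊢
      refine ⟨a - (inner ℝ a u : ℝ) • u, t, inner ℝ a u, inner ℝ b u, rfl, ?_, ?_, ?_, hle⟩
      · rw [inner_sub_left, inner_smul_left, real_inner_self_eq_norm_sq, hu]
        simp
      · simpa using ha
      · rw [hab]; simpa using hb
  rw [himg]
  exact hT.image (by fun_prop)

theorem steiner_main (K₀ : Set (EE n)) (hc0 : IsCompact K₀) (hconv0 : Convex ℝ K₀)
    (hne0 : K₀.Nonempty) (u : ℕ → EE n) (hu : ∀ i, ‖u i‖ = 1) (K : ℕ → Set (EE n))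
    (hK0 : K 0 = K₀) (hK : ∀ i, K (i + 1) = St (u i) (K i)) :
    ∃ (ψ : ℕ → (EE n ≃ₗᵢ[ℝ] EE n)) (L : Set (EE n)), IsCompact L ∧ L.Nonempty ∧
      Tendsto (fun i => Metric.hausdorffDist (ψ i '' K i) L) atTop (𝓝 0) := by
  have hall : ∀ i, IsCompact (K i) ∧ Convex ℝ (K i) ∧ (K i).Nonempty := by
    intro i
    induction i with
    | zero => rw [hK0]; exact ⟨hc0, hconv0, hne0⟩
    | succ i ih =>
      rw [hK i]
      exact ⟨St_compact (hu i) ih.1 ih.2.1, St_convex (hu i) ih.1 ih.2.1,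
        St_nonempty (hu i) ih.2.2⟩
  have hM : ∀ i, ∀ z ∈ K (i + 1), ∃ a ∈ K i, ∃ b ∈ K i,
      z = (1/2 : ℝ) • (a + act (refl (u i)) b) := by
    intro i z hz
    rw [hK i] at hz
    exact St_sub (hu i) (hall i).1 (hall i).2.1 z hz
  obtain ⟨R, hR⟩ := hc0.isBounded.exists_norm_le
  have hRi : ∀ i, ∀ x ∈ K i, ‖x‖ ≤ R := by
    intro i
    induction i with
    | zero => rw [hK0]; exact hR
    | succ i ih =>
      intro z hz
      obtain ⟨a, ha, b, hb, rfl⟩ := hM i z hz
      rw [norm_smul]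
      have h1 := norm_add_le a (act (refl (u i)) b)
      rw [norm_act] at h1
      have h2 := ih a ha
      have h3 := ih b hb
      have : ‖(1/2 : ℝ)‖ = 1/2 := by norm_num
      rw [this]
      linarith
  exact shape_conv K u hu (fun i => (hall i).1) (fun i => (hall i).2.2) (fun i => (hall i).2.1) R
    (fun i x hx => by simpa using hRi i x hx) hM

end Pool.Agent.Work.MP_2ecbc5_gt
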