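import Mathlib
import Pool.Agent.Work.MP_2ecbc5_gt.Steiner

set_option autoImplicit false

open MeasureTheory Filter Topology

namespace Pool.Agent.Work.MP_2ecbc5_gt

theorem ball_subset_St {n : ℕ} {u : EuclideanSpace ℝ (Fin n)} (hu : ‖u‖ = 1)
    {K : Set (EuclideanSpace ℝ (Fin n))} (hK : IsCompact K) (hc : Convex ℝ K)
    {c : EuclideanSpace ℝ (Fin n)} {r : ℝ} (h : Metric.closedBall c r ⊆ K) :
    Metric.closedBall (c - (inner ℝ c u : ℝ) • u) r ⊆ St u K := by
  intro y hy
  rw [mem_St hu hK hc]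
  set a : ℝ := inner ℝ c u with ha
  set t : ℝ := inner ℝ y u with ht
  have huu : (inner ℝ u u : ℝ) = 1 := by rw [real_inner_self_eq_norm_sq, hu]; norm_num
  have hx : (inner ℝ (y - t • u) u : ℝ) = 0 := by
    rw [inner_sub_left, inner_smul_left, huu, ← ht]; simp
  rw [Metric.mem_closedBall, dist_eq_norm] at hy
  -- the points of the chord through `y` at distance `|t|` from `c`
  have key : ∀ e : ℝ, e ^ 2 = t ^ 2 → y - t • u + (a + e) • u ∈ K := by
    intro e he
    apply h
    rw [Metric.mem_closedBall, dist_eq_norm]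
    refine le_trans (le_of_eq ?_) hy
    have h1 : y - t • u + (a + e) • u - c = (y - t • u - (c - a • u)) + e • u := by module
    have h2 : y - (c - a • u) = (y - t • u - (c - a • u)) + t • u := by module
    have hcu : (inner ℝ (c - a • u) u : ℝ) = 0 := by
      rw [inner_sub_left, inner_smul_left, huu, ← ha]; simp
    have horth : (inner ℝ (y - t • u - (c - a • u)) u : ℝ) = 0 := by
      rw [inner_sub_left, hx, hcu, sub_zero]
    have hn : ∀ e' : ℝ, ‖(y - t • u - (c - a • u)) + e' • u‖ ^ 2 =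
        ‖y - t • u - (c - a • u)‖ ^ 2 + e' ^ 2 := by
      intro e'
      rw [← real_inner_self_eq_norm_sq, ← real_inner_self_eq_norm_sq, inner_add_left,
        inner_add_right, inner_add_right, inner_smul_left, inner_smul_right, inner_smul_right,
        inner_smul_left, huu, real_inner_comm (y - t • u - (c - a • u)) u, horth]
      simp only [conj_trivial]
      ring
    rw [h1, h2]
    have h3 := hn e
    rw [he, ← hn t] at h3
    exact (sq_eq_sq₀ (norm_nonneg _) (norm_nonneg _)).1 h3
  refine ⟨y - t • u, t, a + -|t|, a + |t|, by module, hx, key _ (by simp), key _ (by simp), ?_⟩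
  linarith

/-- Shape convergence with the extra information that the limit is a convex body. -/
theorem steiner_full {n : ℕ} (K : ℕ → Set (EuclideanSpace ℝ (Fin n))) (hK : IsCompact (K 0))
    (hconv : Convex ℝ (K 0)) (hint : (interior (K 0)).Nonempty)
    (u : ℕ → EuclideanSpace ℝ (Fin n)) (hu : ∀ i, ‖u i‖ = 1)
    (hstep : ∀ i, K (i + 1) = St (u i) (K i)) :
    ∃ (ψ : ℕ → (EuclideanSpace ℝ (Fin n) ≃ₗᵢ[ℝ] EuclideanSpace ℝ (Fin n)))
      (L : Set (EuclideanSpace ℝ (Fin n))),
      IsCompact L ∧ Convex ℝ L ∧ (interior L).Nonempty ∧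
        Tendsto (fun i => Metric.hausdorffDist (ψ i '' K i) L) atTop (𝓝 0) := by
  obtain ⟨ψ, L, hL, hLn, hlim⟩ := steiner_main (K 0) hK hconv (hint.mono interior_subset)
    u hu K rfl hstep
  have hall : ∀ i, IsCompact (K i) ∧ Convex ℝ (K i) := by
    intro i
    induction i with
    | zero => exact ⟨hK, hconv⟩
    | succ i ih =>
      rw [hstep i]
      exact ⟨St_compact (hu i) ih.1 ih.2, St_convex (hu i) ih.1 ih.2⟩
  obtain ⟨c₀, hc₀⟩ := hint
  obtain ⟨r₀, hr₀, hball⟩ := Metric.isOpen_iff.1 isOpen_interior c₀ hc₀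
  set r := r₀ / 2 with hr
  have hrpos : 0 < r := by positivity
  have hball' : Metric.closedBall c₀ r ⊆ K 0 :=
    ((Metric.closedBall_subset_ball (by linarith)).trans hball).trans interior_subset
  have hcball : ∀ i, ∃ c, ‖c‖ ≤ ‖c₀‖ ∧ Metric.closedBall c r ⊆ K i := by
    intro i
    induction i with
    | zero => exact ⟨c₀, le_rfl, hball'⟩
    | succ i ih =>
      obtain ⟨c, hcn, hc⟩ := ih
      refine ⟨c - (inner ℝ c (u i) : ℝ) • u i, ?_, ?_⟩
      · refine le_trans ?_ hcn
        have huu : (inner ℝ (u i) (u i) : ℝ) = 1 := by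
          rw [real_inner_self_eq_norm_sq, hu]; norm_num
        refine (sq_le_sq₀ (norm_nonneg _) (norm_nonneg _)).1 ?_
        rw [← real_inner_self_eq_norm_sq, ← real_inner_self_eq_norm_sq, inner_sub_left,
          inner_sub_right, inner_sub_right, inner_smul_left, inner_smul_right, inner_smul_right,
          inner_smul_left, huu, real_inner_comm (u i) c]
        simp only [conj_trivial]
        nlinarith [sq_nonneg (inner ℝ c (u i) : ℝ)]
      · rw [hstep i]
        exact ball_subset_St (hu i) (hall i).1 (hall i).2 hc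
  choose c hcn hc using hcball
  -- points of one set are close to points of the other one
  have hne : ∀ i, (ψ i '' K i).Nonempty := fun i =>
    ⟨ψ i (c i), c i, hc i (Metric.mem_closedBall_self hrpos.le), rfl⟩
  have hfin : ∀ i, Metric.hausdorffEDist (ψ i '' K i) L ≠ ⊤ := fun i =>
    Metric.hausdorffEDist_ne_top_of_nonempty_of_bounded (hne i) hLn
      ((hall i).1.image (ψ i).continuous).isBounded hL.isBounded
  have hev : ∀ ε : ℝ, 0 < ε → ∀ᶠ i in atTop,
      Metric.hausdorffDist (ψ i '' K i) L < ε := by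
    intro ε hε
    exact (tendsto_order.1 hlim).2 ε hε
  have hclosed : ∀ z : EuclideanSpace ℝ (Fin n), (∀ ε : ℝ, 0 < ε → ∃ w ∈ L, dist z w < ε) →
      z ∈ L := by
    intro z hz
    rw [← hL.isClosed.closure_eq, Metric.mem_closure_iff]
    intro ε hε
    obtain ⟨w, hw, h⟩ := hz ε hε
    exact ⟨w, hw, h⟩
  refine ⟨ψ, L, hL, ?_, ?_, hlim⟩
  · intro x hx y hy a b ha hb hab
    apply hclosed
    intro ε hε
    obtain ⟨i, hi⟩ := (hev (ε / 2) (by positivity)).exists
    obtain ⟨x', hx', hxx⟩ := Metric.exists_dist_lt_of_hausdorffDist_lt' hx hi (hfin i)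
    obtain ⟨y', hy', hyy⟩ := Metric.exists_dist_lt_of_hausdorffDist_lt' hy hi (hfin i)
    have hcv : Convex ℝ (ψ i '' K i) :=
      (hall i).2.is_linear_image (ψ i).toLinearEquiv.toLinearMap.isLinear
    obtain ⟨w, hw, hzw⟩ := Metric.exists_dist_lt_of_hausdorffDist_lt
      (hcv hx' hy' ha hb hab) hi (hfin i)
    refine ⟨w, hw, ?_⟩
    have h1 : dist (a • x + b • y) (a • x' + b • y') ≤ ε / 2 := by
      rw [dist_eq_norm]
      have e : a • x + b • y - (a • x' + b • y') = a • (x - x') + b • (y - y') := by module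
      rw [e]
      refine (norm_add_le _ _).trans ?_
      rw [norm_smul, norm_smul, Real.norm_of_nonneg ha, Real.norm_of_nonneg hb]
      have h2 : ‖x - x'‖ ≤ ε / 2 := by
        rw [← dist_eq_norm, dist_comm]; exact hxx.le
      have h3 : ‖y - y'‖ ≤ ε / 2 := by
        rw [← dist_eq_norm, dist_comm]; exact hyy.le
      nlinarith
    calc dist (a • x + b • y) w ≤ dist (a • x + b • y) (a • x' + b • y') +
          dist (a • x' + b • y') w := dist_triangle _ _ _
      _ < ε := by linarith
  · -- a cluster point of the images of the centres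
    have hbd : ∀ i, ψ i (c i) ∈ Metric.closedBall (0 : EuclideanSpace ℝ (Fin n)) ‖c₀‖ := by
      intro i
      rw [mem_closedBall_zero_iff, (ψ i).norm_map]
      exact hcn i
    obtain ⟨c', -, φ, hφ, hlim'⟩ := (isCompact_closedBall (0 : EuclideanSpace ℝ (Fin n))
      ‖c₀‖).tendsto_subseq hbd
    refine ⟨c', mem_interior.2 ⟨Metric.ball c' r, ?_, Metric.isOpen_ball,
      Metric.mem_ball_self hrpos⟩⟩
    intro y hy
    apply hclosed
    intro ε hε
    have e1 : ∀ᶠ j in atTop, dist (ψ (φ j) (c (φ j))) c' < ε / 2 :=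
      (Metric.tendsto_nhds.1 hlim') (ε / 2) (by positivity)
    have e2 := hφ.tendsto_atTop.eventually (hev (ε / 2) (by positivity))
    obtain ⟨j, hj1, hj2⟩ := (e1.and e2).exists
    set i := φ j with hi
    have hmem : y + (ψ i (c i) - c') ∈ ψ i '' K i := by
      refine ⟨(ψ i).symm (y + (ψ i (c i) - c')), hc i ?_, by simp⟩
      rw [Metric.mem_closedBall]
      have h1 : dist ((ψ i).symm (y + (ψ i (c i) - c'))) (c i) =
          dist (y + (ψ i (c i) - c')) (ψ i (c i)) := by
        rw [← (ψ i).dist_map]; simp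
      rw [h1, dist_eq_norm]
      have h2 : y + (ψ i (c i) - c') - ψ i (c i) = y - c' := by abel
      rw [h2, ← dist_eq_norm]
      exact (Metric.mem_ball.1 hy).le
    obtain ⟨w, hw, hzw⟩ := Metric.exists_dist_lt_of_hausdorffDist_lt hmem hj2 (hfin i)
    refine ⟨w, hw, ?_⟩
    have h1 : dist y (y + (ψ i (c i) - c')) < ε / 2 := by
      rw [dist_self_add_right, ← dist_eq_norm]; exact hj1
    calc dist y w ≤ dist y (y + (ψ i (c i) - c')) + dist (y + (ψ i (c i) - c')) w :=
          dist_triangle _ _ _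
      _ < ε := by linarith

end Pool.Agent.Work.MP_2ecbc5_gt
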